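import Pool.Agent.H43.BZ.Stm3

/-! BZ3-LKEY (helper370) -/

set_option autoImplicit false

open scoped RealInnerProductSpace

namespace Pool.Agent.H370.BZ

open Pool.Agent.H43.BZ

theorem key_real (d γ V W r G : ℝ) (hd : 2 ≤ d) (hγ : γ < 0) (hV : 0 ≤ V) (hW : 0 ≤ W) (hr : 0 ≤ r)
    (h1 : V - W ≤ r) (h2 : r ≤ V + W) (hG : G ≤ V ^ 2 * W ^ 2) :
    -(2 * (4 * (d + 3)) * (d - 1) * r ^ 2 / (1 + V ^ 2)) +
        4 * (4 * (d + 3)) * (4 * (d + 3) + 1) * G / (1 + V ^ 2) ^ 2 + (d - 1) * (d + γ) ≤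
      290 * (4 * (4 * (d + 3)) * (4 * (d + 3) + 1) + d ^ 2) *
        ((1 + W) ^ 2 / (1 + (r / (1 + W)) ^ 2)) := by
  have hD : 0 < 1 + V ^ 2 := by positivity
  have hL : 1 ≤ 1 + W := by linarith
  have hL0 : 0 < 1 + W := by linarith
  obtain ⟨A, hA⟩ : ∃ A, A = 4 * (4 * (d + 3)) * (4 * (d + 3) + 1) := ⟨_, rfl⟩
  have hA0 : 0 < A := by rw [hA]; nlinarith
  rw [← hA]
  have hrhs : (1 + W) ^ 2 / (1 + (r / (1 + W)) ^ 2) = (1 + W) ^ 4 / ((1 + W) ^ 2 + r ^ 2) := by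
    field_simp
  rw [hrhs]
  obtain ⟨D, hDe⟩ : ∃ D, D = 1 + V ^ 2 := ⟨_, rfl⟩
  rw [← hDe] at hD ⊢
  obtain ⟨L, hLe⟩ : ∃ L, L = 1 + W := ⟨_, rfl⟩
  rw [← hLe] at hL hL0 ⊢
  have hD1 : 1 ≤ D := by rw [hDe]; nlinarith [sq_nonneg V]
  have hWL : W ≤ L := by linarith
  have hW2 : W ^ 2 ≤ L ^ 2 := pow_le_pow_left₀ hW hWL 2
  have hL2 : 1 ≤ L ^ 2 := one_le_pow₀ hL
  have hL4 : L ^ 2 ≤ L ^ 4 := by nlinarith
  have hden : 0 < L ^ 2 + r ^ 2 := by positivity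
  -- the middle term
  have hmid : A * G / D ^ 2 ≤ A * W ^ 2 / D := by
    rw [div_le_div_iff₀ (by positivity) hD]
    have h3 : G ≤ D * W ^ 2 := by
      refine hG.trans ?_
      rw [hDe]; nlinarith [sq_nonneg W]
    nlinarith [mul_le_mul_of_nonneg_left h3 (mul_pos hA0 hD).le]
  have hlast : (d - 1) * (d + γ) ≤ (d - 1) * d := by nlinarith
  by_cases hc : 1 ≤ V ∧ 256 * W ^ 2 ≤ D
  · obtain ⟨hc1, hc2⟩ := hc
    have hDV : D ≤ 2 * V ^ 2 := by rw [hDe]; nlinarith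
    have hWV : W ≤ V / 11 := by
      apply le_of_sq_le_sq _ (by positivity)
      nlinarith
    have hrV : 10 / 11 * V ≤ r := by linarith
    have hr2 : 50 / 121 * D ≤ r ^ 2 := by
      have : (10 / 11 * V) ^ 2 ≤ r ^ 2 := pow_le_pow_left₀ (by positivity) hrV 2
      nlinarith
    have hfirst : (d - 1) * d ≤ 2 * (4 * (d + 3)) * (d - 1) * r ^ 2 / D := by
      rw [le_div_iff₀ hD]
      have h5 : 0 ≤ 2 * (4 * (d + 3)) * (d - 1) := by
        apply mul_nonneg <;> linarith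
      have h6 := mul_le_mul_of_nonneg_left hr2 h5
      refine le_trans ?_ h6
      have h7 : (d - 1) * d * D ≤ (d - 1) * D * (8 * (d + 3) * (50 / 121)) := by
        have : 0 ≤ (d - 1) * D := mul_nonneg (by linarith) hD.le
        nlinarith
      linarith
    have h8 : A * W ^ 2 / D ≤ 3 * A * (L ^ 4 / (L ^ 2 + r ^ 2)) := by
      rw [mul_div_assoc', div_le_div_iff₀ hD hden]
      have h9 : r ^ 2 ≤ 2 * D + 2 * L ^ 2 := by
        have : r ^ 2 ≤ (V + W) ^ 2 := pow_le_pow_left₀ hr h2 2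
        nlinarith [sq_nonneg (V - W)]
      have h10 : W ^ 2 * (L ^ 2 + r ^ 2) ≤ 3 * L ^ 4 * D := by
        have e1 : W ^ 2 * (L ^ 2 + r ^ 2) ≤ W ^ 2 * (3 * L ^ 2 + 2 * D) := by
          apply mul_le_mul_of_nonneg_left _ (sq_nonneg W); linarith
        have e2 : W ^ 2 * L ^ 2 ≤ D / 256 * L ^ 4 := by
          apply mul_le_mul _ hL4 (by positivity) (by positivity)
          linarith
        have e3 : W ^ 2 * D ≤ L ^ 4 * D := by
          apply mul_le_mul_of_nonneg_right _ hD.le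
          linarith
        nlinarith [mul_pos (pow_pos hL0 4) hD]
      nlinarith [mul_le_mul_of_nonneg_left h10 hA0.le]
    have h11 : 3 * A * (L ^ 4 / (L ^ 2 + r ^ 2)) ≤ 290 * (A + d ^ 2) * (L ^ 4 / (L ^ 2 + r ^ 2)) := by
      apply mul_le_mul_of_nonneg_right _ (by positivity)
      nlinarith [sq_nonneg d]
    linarith
  · have hr2 : r ^ 2 ≤ 289 * L ^ 2 := by
      have h12 : r ≤ 17 * L := by
        by_cases hc1 : 1 ≤ V
        · have hc2 : D < 256 * W ^ 2 := by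
            by_contra hcon
            exact hc ⟨hc1, not_lt.1 hcon⟩
          have h13 : V ≤ 16 * W := by
            apply le_of_sq_le_sq _ (by positivity)
            nlinarith
          linarith
        · have : V < 1 := not_le.1 hc1
          linarith
      have := pow_le_pow_left₀ hr h12 2
      nlinarith
    have h14 : A * W ^ 2 / D ≤ A * L ^ 2 := by
      rw [div_le_iff₀ hD]
      have h15 : W ^ 2 ≤ L ^ 2 * D := by nlinarith
      nlinarith [mul_le_mul_of_nonneg_left h15 hA0.le]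
    have h16 : (d - 1) * d ≤ d ^ 2 * L ^ 2 := by nlinarith [sq_nonneg d]
    have h17 : 0 ≤ 2 * (4 * (d + 3)) * (d - 1) * r ^ 2 / D := by
      apply div_nonneg _ hD.le
      apply mul_nonneg _ (sq_nonneg r)
      apply mul_nonneg <;> linarith
    have h18 : (A + d ^ 2) * L ^ 2 ≤ 290 * (A + d ^ 2) * (L ^ 4 / (L ^ 2 + r ^ 2)) := by
      have h19 : L ^ 2 ≤ 290 * (L ^ 4 / (L ^ 2 + r ^ 2)) := by
        rw [mul_div_assoc', le_div_iff₀ hden]
        nlinarith [sq_nonneg L]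
      have h20 : 0 ≤ A + d ^ 2 := by positivity
      nlinarith [mul_le_mul_of_nonneg_left h19 h20]
    linarith

theorem LKEY : S_LKEY := by
  intro d hd
  have hd' : (2 : ℝ) ≤ (d : ℝ) := by exact_mod_cast hd
  refine ⟨290 * (4 * (4 * ((d : ℝ) + 3)) * (4 * ((d : ℝ) + 3) + 1) + (d : ℝ) ^ 2), by positivity,
    fun γ hγ v w => ?_⟩
  refine key_real d γ ‖v‖ ‖w‖ ‖v - w‖ _ hd' hγ (norm_nonneg _) (norm_nonneg _) (norm_nonneg _)
    (norm_sub_norm_le v w) (norm_sub_le v w) ?_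
  have h1 : ‖v - w‖ ^ 2 = ‖v‖ ^ 2 - 2 * ⟪v, w⟫ + ‖w‖ ^ 2 := norm_sub_sq_real v w
  have h2 : ⟪v, v - w⟫ = ‖v‖ ^ 2 - ⟪v, w⟫ := by
    rw [inner_sub_right, real_inner_self_eq_norm_sq]
  rw [h1, h2]
  nlinarith [sq_nonneg ⟪v, w⟫]

end Pool.Agent.H370.BZ
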